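import Pool.Agent.J4H69.K2.Stm
import Pool.Agent.J4H63.K1.Mis

set_option autoImplicit false

/-!
# Project K2 (helper69), job MIS2 (helper63)
-/

namespace Pool.Agent.J4H63.K2

open Filter Topology Set Metric
open Pool.Agent.J4H69.K1 Pool.Agent.J4H69.K2 Pool.Agent.J4H63.K1

variable {u : Ultrafilter ℕ} {x : ℕ → ℂ}

/-- an algebraic sequence smaller than all powers is zero -/
theorem zero_of_sm (hPC : S_PC) (hx : Tendsto (fun j => ‖x j‖) u atTop) {a : ℕ → ℂ} (ha : Alg u x a)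
    (hs : Sm u x a) : ∀ᶠ j in (u : Filter ℕ), a j = 0 := by
  rcases hPC u x a hx ha with h | ⟨v, C, hC, h⟩
  · exact h
  exfalso
  have hfin : ∀ᶠ j in (u : Filter ℕ), False := by
    filter_upwards [h, hs (-v + 1), hx.eventually_ge_atTop 1, hx.eventually_gt_atTop C] with j h1 h2 h3 h4
    have hp : 0 < ‖x j‖ ^ (v : ℝ) := by positivity
    have h5 : ‖x j‖ ^ (-(-(v : ℝ) + 1)) = ‖x j‖ ^ (v : ℝ) * ‖x j‖⁻¹ := by
      rw [show -(-(v : ℝ) + 1) = v + (-1) by ring, Real.rpow_add (by linarith), Real.rpow_neg_one]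
    rw [h5] at h2
    have h6 : C⁻¹ * ‖x j‖ ^ (v : ℝ) ≤ ‖x j‖⁻¹ * ‖x j‖ ^ (v : ℝ) := by linarith [h1.1]
    have h7 : C⁻¹ ≤ ‖x j‖⁻¹ := le_of_mul_le_mul_right h6 hp
    have h8 : ‖x j‖ ≤ C := (inv_le_inv₀ hC (by linarith)).mp h7
    linarith
  exact u.neBot.ne (by simpa using hfin)

/-- from one huge derivative -/
theorem coef_zero (hPC : S_PC) (hx : Tendsto (fun j => ‖x j‖) u atTop) {β f : ℕ → ℂ} (hβ : Alg u x β)
    (hf : Pb u x f) {G : ℕ → ℂ} (hG0 : ∀ᶠ j in (u : Filter ℕ), G j ≠ 0) (hG : Sm u x (fun j => (G j)⁻¹))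
    (hrel : ∀ᶠ j in (u : Filter ℕ), β j * G j + f j = 0) : ∀ᶠ j in (u : Filter ℕ), β j = 0 := by
  refine zero_of_sm hPC hx hβ ?_
  have e1 : Sm u x (fun j => - (f j * (G j)⁻¹)) := (Sm.mul hx hf hG).neg
  refine e1.congr ?_
  filter_upwards [hG0, hrel] with j h7 h8
  field_simp
  linear_combination (-1 : ℂ) * h8

/-- both points in the large sector -/
theorem caseLL2 (hPSI : S_PSI) (hCL : S_CL) (hPC : S_PC) (hDOM : S_DOM) (hx : Tendsto (fun j => ‖x j‖) u atTop)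
    {w : ℕ → ℂ} (hw : Tendsto (fun j => ‖w j‖) u atTop) (hwA : Alg u x w)
    {v : ℚ} (hv : 0 < v) {C : ℝ} (hC : 0 < C)
    (hb : ∀ᶠ j in (u : Filter ℕ), C⁻¹ * ‖x j‖ ^ (v : ℝ) ≤ ‖w j‖ ∧ ‖w j‖ ≤ C * ‖x j‖ ^ (v : ℝ))
    {v' : ℝ} (hv' : 0 < v') (hwx : ∀ᶠ j in (u : Filter ℕ), ‖x j‖ ^ v' ≤ ‖w j‖)
    (hargx : ∀ᶠ j in (u : Filter ℕ), |Complex.arg (x j)| ≤ 3 * Real.pi / 4)
    (hargw : ∀ᶠ j in (u : Filter ℕ), |Complex.arg (w j)| ≤ 3 * Real.pi / 4)
    (hrgx : Alg u x (fun j => rg (x j))) (hrgw : Alg u x (fun j => rg (w j)))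
    {β γ δ : ℕ → ℂ} (hβ : Alg u x β) (hγ : Alg u x γ) (hδ : Alg u x δ)
    (hrel : ∀ᶠ j in (u : Filter ℕ), β j * deriv rg (x j) + γ j * deriv rg (w j) + δ j = 0) :
    ∀ᶠ j in (u : Filter ℕ), β j * rg (x j) + (v : ℂ) * (γ j * rg (w j)) = 0 := by
  obtain ⟨h1, h2, h3, h4, h5, h6⟩ := hCL u x hx
  have hxx : ∀ᶠ j in (u : Filter ℕ), ‖x j‖ ^ (1 : ℝ) ≤ ‖x j‖ := Eventually.of_forall fun j => by
    rw [Real.rpow_one]
  have hL1 := rgL hx hargx
  have hL2 := rgL hw hargw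
  have hβx : Alg u x (fun j => β j * rg (x j)) := h4 _ _ hβ hrgx
  have hγw : Alg u x (fun j => γ j * rg (w j)) := h4 _ _ hγ hrgw
  set A : ℕ → ℂ := fun j => -(β j * rg (x j) + (v : ℂ) * (γ j * rg (w j))) with hA
  have hAA : Alg u x A := alg_neg hCL hx (h3 _ _ hβx (h4 _ _ (h1 v) hγw))
  have hf : Sm u x (fun _ => (0 : ℂ)) := by
    intro M
    filter_upwards [hx.eventually_ge_atTop 1] with j hj
    rw [norm_zero]
    positivity
  have hcx : Le u x x 1 := Eventually.of_forall fun j => by rw [Real.rpow_one]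
  have hm := main hPC hDOM hx (log_tendsto hx) (log_small hx hx hcx) 1 _ hAA _ hf ?_
  · filter_upwards [hm] with j h7
    simp only [hA, neg_eq_zero] at h7
    exact h7
  · intro M
    obtain ⟨c1, hc1⟩ := Alg.pb hPC hx hβx
    obtain ⟨c2, hc2⟩ := Alg.pb hPC hx hγw
    set c := max c1 c2 with hc
    have hc1' := hc1.mono hx (le_max_left c1 c2)
    have hc2' := hc2.mono hx (le_max_right c1 c2)
    rw [← hc] at hc1' hc2'
    set M' := |M| + |c| + 4 with hM'
    obtain ⟨a, ha, hEx⟩ := psiL hPSI hCL hx hx h2 one_pos hxx hargx M'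
    obtain ⟨b₁, hb₁, hE1⟩ := psiL hPSI hCL hx hw hwA hv' hwx hargw (M' + 1)
    obtain ⟨b₂, hb₂, hE2⟩ := logrel hCL hPC hx hw hwA hv hC hb (M' + 1)
    set e : ℕ → ℂ := fun j => logDeriv Complex.Gamma (x j) - (Complex.log (x j) + a j) with he
    set b : ℕ → ℂ := fun j => b₁ j + b₂ j with hbdef
    set e' : ℕ → ℂ := fun j => logDeriv Complex.Gamma (w j) - ((v : ℂ) * Complex.log (x j) + b j) with he'
    have hbAlg : Alg u x b := h3 _ _ hb₁ hb₂
    have hE : Le u x e' (-M') := by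
      have h7 := (hE1.add hx hE2).mono hx (show -(M' + 1) + 1 ≤ -M' by linarith)
      refine h7.congr (Eventually.of_forall fun j => ?_)
      simp only [he', hbdef]
      ring
    have hB0 : Alg u x (fun j => δ j + -(β j * rg (x j) * a j) + -(γ j * rg (w j) * b j)) :=
      h3 _ _ (h3 _ _ hδ (alg_neg hCL hx (h4 _ _ hβx ha))) (alg_neg hCL hx (h4 _ _ hγw hbAlg))
    refine ⟨fun i j => if i = 0 then δ j + -(β j * rg (x j) * a j) + -(γ j * rg (w j) * b j) else A j, ?_, ?_, ?_⟩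
    · intro i hi
      interval_cases i
      · simpa using hB0
      · simpa using hAA
    · simp
    · have t1 := (hc1'.mul hx hEx).neg
      have t2 := (hc2'.mul hx hE).neg
      have hM1 : M' = |M| + |c| + 4 := hM'
      have hcc := le_abs_self c
      have hMM := le_abs_self M
      have hc0 := abs_nonneg c
      have hM0 := abs_nonneg M
      have t4 := (t1.mono hx (show c + -M' ≤ -M - 2 by linarith)).add hx
        (t2.mono hx (show c + -M' ≤ -M - 2 by linarith))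
      refine (t4.mono hx (show -M - 2 + 1 ≤ -M by linarith)).congr ?_
      filter_upwards [hrel, hL1, hL2] with j h7 h8 h9
      rw [h8.1, h9.1] at h7
      simp only [Finset.sum_range_succ, Finset.sum_range_zero]
      simp only [he, he', hA]
      norm_num
      linear_combination h7

/-- points in the left cone are near the integers -/
theorem leftS2 (hLEFT2 : S_LEFT2) (hx : Tendsto (fun j => ‖x j‖) u atTop) {z : ℕ → ℂ}
    (hz : Tendsto (fun j => ‖z j‖) u atTop)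
    {v : ℝ} (hv : 0 < v) (hzx : ∀ᶠ j in (u : Filter ℕ), ‖x j‖ ^ v ≤ ‖z j‖)
    (harg : ∀ᶠ j in (u : Filter ℕ), 3 * Real.pi / 4 < |Complex.arg (z j)|)
    (hrg : Pb u x (fun j => rg (z j))) (M : ℝ) :
    ∀ᶠ j in (u : Filter ℕ), ∃ m : ℕ, ‖z j + m‖ ≤ ‖x j‖ ^ (-M) ∧ (m.factorial : ℝ) ≤ 2 * ‖deriv rg (z j)‖ ∧
      ‖deriv rg (z j)‖ ≤ 2 * (m.factorial : ℝ) := by
  obtain ⟨c, hc⟩ := hrg
  obtain ⟨R, hR⟩ := hLEFT2 ⌈|c| / v⌉₊ ⌈|M| / v⌉₊
  filter_upwards [hzx, harg, hz.eventually_ge_atTop R, hx.eventually_ge_atTop 1, hc] with j h1 h2 h3 h4 h5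
  have h6 : 0 < ‖x j‖ ^ v := by positivity
  have h7 : ∀ t : ℝ, ‖x j‖ ^ |t| ≤ ‖z j‖ ^ ⌈|t| / v⌉₊ := by
    intro t
    calc ‖x j‖ ^ |t| ≤ ‖x j‖ ^ (v * (⌈|t| / v⌉₊ : ℝ)) := by
          apply Real.rpow_le_rpow_of_exponent_le h4
          have : |t| / v ≤ ⌈|t| / v⌉₊ := Nat.le_ceil _
          rw [div_le_iff₀ hv] at this
          linarith
      _ = (‖x j‖ ^ v) ^ ⌈|t| / v⌉₊ := by rw [Real.rpow_mul (by linarith), Real.rpow_natCast]
      _ ≤ _ := by gcongr
  obtain ⟨m, h8, h9, h10⟩ := hR (z j) h3 h2 (by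
    calc ‖rg (z j)‖ ≤ ‖x j‖ ^ c := h5
      _ ≤ ‖x j‖ ^ |c| := Real.rpow_le_rpow_of_exponent_le h4 (le_abs_self c)
      _ ≤ _ := h7 c)
  refine ⟨m, ?_, h9, h10⟩
  have h11 : 0 < ‖x j‖ ^ M := by positivity
  rw [Real.rpow_neg (by linarith), ← one_div, le_div_iff₀ h11]
  calc ‖z j + m‖ * ‖x j‖ ^ M ≤ ‖z j + m‖ * ‖z j‖ ^ ⌈|M| / v⌉₊ := by
        gcongr
        exact (Real.rpow_le_rpow_of_exponent_le h4 (le_abs_self M)).trans (h7 M)
    _ ≤ 1 := h8

theorem fact_bound {m n K : ℕ} (hm : 1 ≤ m) (h : (n.factorial : ℝ) ≤ ((m : ℝ) + 1) ^ K * m.factorial) :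
    n ≤ m + K := by
  by_contra hlt
  push Not at hlt
  have h1 := Nat.factorial_mul_pow_le_factorial (m := m) (n := K + 1)
  have h2 : (m + (K + 1)).factorial ≤ n.factorial := Nat.factorial_le (by omega)
  have h3 : ((m.factorial : ℝ)) * ((m : ℝ) + 1) ^ (K + 1) ≤ n.factorial := by
    exact_mod_cast h1.trans h2
  have h4 : (0 : ℝ) < m.factorial := by exact_mod_cast m.factorial_pos
  have h5 : (0 : ℝ) < ((m : ℝ) + 1) ^ K := by positivity
  have h6 : (m.factorial : ℝ) * ((m : ℝ) + 1) ^ (K + 1) ≤ ((m : ℝ) + 1) ^ K * m.factorial := h3.trans h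
  rw [pow_succ] at h6
  have h7 : (1 : ℝ) ≤ m := by exact_mod_cast hm
  have h8 : (0 : ℝ) < (m.factorial : ℝ) * ((m : ℝ) + 1) ^ K := by positivity
  nlinarith

/-- both points in the left cone: the difference is an integer -/
theorem caseSS2 (hLEFT2 : S_LEFT2) (hCL : S_CL) (hPC : S_PC) (hx : Tendsto (fun j => ‖x j‖) u atTop)
    {w : ℕ → ℂ} (hw : Tendsto (fun j => ‖w j‖) u atTop) (hwA : Alg u x w)
    {v' : ℝ} (hv' : 0 < v') (hwx : ∀ᶠ j in (u : Filter ℕ), ‖x j‖ ^ v' ≤ ‖w j‖)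
    (hargx : ∀ᶠ j in (u : Filter ℕ), 3 * Real.pi / 4 < |Complex.arg (x j)|)
    (hargw : ∀ᶠ j in (u : Filter ℕ), 3 * Real.pi / 4 < |Complex.arg (w j)|)
    (hrgx : Pb u x (fun j => rg (x j))) (hrgw : Pb u x (fun j => rg (w j)))
    (f1 : ∀ᶠ j in (u : Filter ℕ), deriv rg (x j) ≠ 0) (f2 : Sm u x (fun j => (deriv rg (x j))⁻¹))
    (g1 : ∀ᶠ j in (u : Filter ℕ), deriv rg (w j) ≠ 0) (g2 : Sm u x (fun j => (deriv rg (w j))⁻¹))
    {β γ δ : ℕ → ℂ} (hβ : Alg u x β) (hγ : Alg u x γ) (hδ : Alg u x δ)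
    (hβ0 : ∀ᶠ j in (u : Filter ℕ), β j ≠ 0) (hγ0 : ∀ᶠ j in (u : Filter ℕ), γ j ≠ 0)
    (hrel : ∀ᶠ j in (u : Filter ℕ), β j * deriv rg (x j) + γ j * deriv rg (w j) + δ j = 0) :
    ∃ h : ℤ, ∀ᶠ j in (u : Filter ℕ), w j = x j + h := by
  obtain ⟨c1, c2, c3, c4, c5, c6⟩ := hCL u x hx
  have hxx : ∀ᶠ j in (u : Filter ℕ), ‖x j‖ ^ (1 : ℝ) ≤ ‖x j‖ := Eventually.of_forall fun j => by
    rw [Real.rpow_one]
  have k1 : Pb u x (fun j => deriv rg (w j) * (deriv rg (x j))⁻¹) := by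
    have e1 : Pb u x (fun j => -((β j + δ j * (deriv rg (x j))⁻¹) * (γ j)⁻¹)) :=
      (Pb.mul hx (Pb.add hx (Alg.pb hPC hx hβ) (Pb.mul hx (Alg.pb hPC hx hδ) f2.pb))
        (Alg.pb hPC hx (c5 _ hγ))).neg
    obtain ⟨c, hc⟩ := e1
    refine ⟨c, hc.congr ?_⟩
    filter_upwards [f1, hγ0, hrel] with j h7 h8 h9
    field_simp
    linear_combination (-1 : ℂ) * h9
  have k2 : Pb u x (fun j => deriv rg (x j) * (deriv rg (w j))⁻¹) := by
    have e1 : Pb u x (fun j => -((γ j + δ j * (deriv rg (w j))⁻¹) * (β j)⁻¹)) :=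
      (Pb.mul hx (Pb.add hx (Alg.pb hPC hx hγ) (Pb.mul hx (Alg.pb hPC hx hδ) g2.pb))
        (Alg.pb hPC hx (c5 _ hβ))).neg
    obtain ⟨c, hc⟩ := e1
    refine ⟨c, hc.congr ?_⟩
    filter_upwards [g1, hβ0, hrel] with j h7 h8 h9
    field_simp
    linear_combination (-1 : ℂ) * h9
  obtain ⟨r1, hr1⟩ := k1
  obtain ⟨r2, hr2⟩ := k2
  have near := fun M : ℝ => (leftS2 hLEFT2 hx hx one_pos hxx hargx hrgx M).and
    (leftS2 hLEFT2 hx hw hv' hwx hargw hrgw M)
  -- the difference is bounded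
  set K₁ : ℕ := ⌈|r1| + 1⌉₊ with hK₁
  set K₂ : ℕ := ⌈(|r2| + 1) / v'⌉₊ with hK₂
  have hbd : ∀ᶠ j in (u : Filter ℕ), ∃ h ∈ Finset.Icc (-(K₁ + K₂ : ℕ) : ℤ) (K₁ + K₂ : ℕ),
      ‖w j - x j - h‖ ≤ 1 / 4 := by
    filter_upwards [near 2, hr1, hr2, f1, g1, hx.eventually_ge_atTop 4, hw.eventually_ge_atTop 4, hwx] with
      j hj h1 h2 h3 h4 h5 h6 h7
    obtain ⟨⟨m, a1, a2, a3⟩, ⟨n, b1, b2, b3⟩⟩ := hj
    have hsm : ‖x j‖ ^ (-2 : ℝ) ≤ 1 / 8 := by
      rw [show (-2 : ℝ) = -((2 : ℕ) : ℝ) by norm_num, Real.rpow_neg (by linarith), Real.rpow_natCast]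
      have : (16 : ℝ) ≤ ‖x j‖ ^ 2 := by nlinarith
      rw [← one_div]
      exact one_div_le_one_div_of_le (by norm_num) (by linarith)
    have hxm : ‖x j‖ ≤ m + 1 := by
      calc ‖x j‖ = ‖(x j + m) - m‖ := by rw [add_sub_cancel_right]
        _ ≤ ‖x j + m‖ + ‖(m : ℂ)‖ := norm_sub_le _ _
        _ ≤ 1 + m := by
          rw [Complex.norm_natCast]
          linarith
        _ = _ := by ring
    have hwn : ‖w j‖ ≤ n + 1 := by
      calc ‖w j‖ = ‖(w j + n) - n‖ := by rw [add_sub_cancel_right]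
        _ ≤ ‖w j + n‖ + ‖(n : ℂ)‖ := norm_sub_le _ _
        _ ≤ 1 + n := by
          rw [Complex.norm_natCast]
          linarith
        _ = _ := by ring
    have hm1 : 1 ≤ m := by
      have : (3 : ℝ) ≤ m := by linarith
      have : 3 ≤ m := by exact_mod_cast this
      omega
    have hn1 : 1 ≤ n := by
      have : (3 : ℝ) ≤ n := by linarith
      have : 3 ≤ n := by exact_mod_cast this
      omega
    have hfour : ∀ r : ℝ, 4 * ‖x j‖ ^ r ≤ ‖x j‖ ^ (|r| + 1) := by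
      intro r
      rw [Real.rpow_add (by linarith), Real.rpow_one]
      have : ‖x j‖ ^ r ≤ ‖x j‖ ^ |r| := Real.rpow_le_rpow_of_exponent_le (by linarith) (le_abs_self r)
      have h8 : 0 < ‖x j‖ ^ |r| := by positivity
      nlinarith
    have hG : 0 < ‖deriv rg (x j)‖ := norm_pos_iff.2 h3
    have hH : 0 < ‖deriv rg (w j)‖ := norm_pos_iff.2 h4
    have hHG : ‖deriv rg (w j)‖ ≤ ‖x j‖ ^ r1 * ‖deriv rg (x j)‖ := by
      rw [norm_mul, norm_inv, ← div_eq_mul_inv, div_le_iff₀ hG] at h1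
      exact h1
    have hGH : ‖deriv rg (x j)‖ ≤ ‖x j‖ ^ r2 * ‖deriv rg (w j)‖ := by
      rw [norm_mul, norm_inv, ← div_eq_mul_inv, div_le_iff₀ hH] at h2
      exact h2
    have hnm : n ≤ m + K₁ := by
      refine fact_bound hm1 ?_
      have h8 : ‖x j‖ ^ (|r1| + 1) ≤ ((m : ℝ) + 1) ^ K₁ := by
        calc ‖x j‖ ^ (|r1| + 1) ≤ ‖x j‖ ^ (K₁ : ℝ) :=
              Real.rpow_le_rpow_of_exponent_le (by linarith) (Nat.le_ceil _)
          _ = ‖x j‖ ^ K₁ := Real.rpow_natCast _ _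
          _ ≤ _ := by gcongr
      have h9 := hfour r1
      have h10 : 0 < ‖x j‖ ^ r1 := by positivity
      calc (n.factorial : ℝ) ≤ 2 * ‖deriv rg (w j)‖ := b2
        _ ≤ 2 * (‖x j‖ ^ r1 * (2 * (m.factorial : ℝ))) := by
          gcongr
          exact hHG.trans (by gcongr)
        _ = 4 * ‖x j‖ ^ r1 * m.factorial := by ring
        _ ≤ _ := by
          gcongr
          linarith
    have hmn : m ≤ n + K₂ := by
      refine fact_bound hn1 ?_
      have h8 : ‖x j‖ ^ (|r2| + 1) ≤ ((n : ℝ) + 1) ^ K₂ := by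
        calc ‖x j‖ ^ (|r2| + 1) ≤ ‖x j‖ ^ (v' * (K₂ : ℝ)) := by
              apply Real.rpow_le_rpow_of_exponent_le (by linarith)
              have : (|r2| + 1) / v' ≤ K₂ := Nat.le_ceil _
              rw [div_le_iff₀ hv'] at this
              linarith
          _ = (‖x j‖ ^ v') ^ K₂ := by rw [Real.rpow_mul (by linarith), Real.rpow_natCast]
          _ ≤ _ := by
            gcongr
            linarith
      have h9 := hfour r2
      have h10 : 0 < ‖x j‖ ^ r2 := by positivity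
      calc (m.factorial : ℝ) ≤ 2 * ‖deriv rg (x j)‖ := a2
        _ ≤ 2 * (‖x j‖ ^ r2 * (2 * (n.factorial : ℝ))) := by
          gcongr
          exact hGH.trans (by gcongr)
        _ = 4 * ‖x j‖ ^ r2 * n.factorial := by ring
        _ ≤ _ := by
          gcongr
          linarith
    refine ⟨(m : ℤ) - n, Finset.mem_Icc.2 ⟨by push_cast; omega, by push_cast; omega⟩, ?_⟩
    have e : w j - x j - (((m : ℤ) - n : ℤ) : ℂ) = (w j + n) - (x j + m) := by
      push_cast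
      ring
    rw [e]
    calc ‖(w j + n) - (x j + m)‖ ≤ ‖w j + n‖ + ‖x j + m‖ := norm_sub_le _ _
      _ ≤ _ := by linarith
  -- one integer
  have hone : ∃ h : ℤ, ∀ᶠ j in (u : Filter ℕ), ‖w j - x j - h‖ ≤ 1 / 4 := by
    by_contra hno
    push Not at hno
    have h1 : ∀ h ∈ Finset.Icc (-(K₁ + K₂ : ℕ) : ℤ) (K₁ + K₂ : ℕ), ∀ᶠ j in (u : Filter ℕ),
        ¬ ‖w j - x j - h‖ ≤ 1 / 4 := fun h _ => Ultrafilter.eventually_not.2 (by simpa using hno h)
    have h2 := (Filter.eventually_all_finset _).2 h1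
    have h3 : ∀ᶠ j in (u : Filter ℕ), False := by
      filter_upwards [h2, hbd] with j h4 h5
      obtain ⟨h, h6, h7⟩ := h5
      exact h4 h h6 h7
    exact u.neBot.ne (by simpa using h3)
  obtain ⟨h, hh⟩ := hone
  refine ⟨h, ?_⟩
  have hA : Alg u x (fun j => w j + -x j + ((-h : ℤ) : ℂ)) := by
    have := c3 _ _ (c3 _ _ hwA (alg_neg hCL hx c2)) (c1 ((-h : ℤ) : ℂ))
    exact this
  have hS : Sm u x (fun j => w j + -x j + ((-h : ℤ) : ℂ)) := by
    intro M
    filter_upwards [near (|M| + 2), hh, hx.eventually_ge_atTop 4] with j hj h1 h2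
    obtain ⟨⟨m, a1, -, -⟩, ⟨n, b1, -, -⟩⟩ := hj
    have hsm : ‖x j‖ ^ (-(|M| + 2)) ≤ 1 / 8 * ‖x j‖ ^ (-M) := by
      rw [show -(|M| + 2) = -((2 : ℕ) : ℝ) + -|M| by push_cast; ring, Real.rpow_add (by linarith),
        Real.rpow_neg (by linarith), Real.rpow_natCast]
      have h3 : (16 : ℝ) ≤ ‖x j‖ ^ 2 := by nlinarith
      have h4 : (‖x j‖ ^ 2)⁻¹ ≤ 1 / 8 := by
        rw [← one_div]
        exact one_div_le_one_div_of_le (by norm_num) (by linarith)
      have h5 : ‖x j‖ ^ (-|M|) ≤ ‖x j‖ ^ (-M) :=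
        Real.rpow_le_rpow_of_exponent_le (by linarith) (by linarith [le_abs_self M])
      gcongr
    have hsm1 : ‖x j‖ ^ (-(|M| + 2)) ≤ 1 / 8 := by
      have h5 : ‖x j‖ ^ (-(|M| + 2)) ≤ ‖x j‖ ^ (-((2 : ℕ) : ℝ)) := by
        apply Real.rpow_le_rpow_of_exponent_le (by linarith)
        push_cast
        linarith [abs_nonneg M]
      refine h5.trans ?_
      rw [Real.rpow_neg (by linarith), Real.rpow_natCast, ← one_div]
      have h3 : (16 : ℝ) ≤ ‖x j‖ ^ 2 := by nlinarith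
      exact one_div_le_one_div_of_le (by norm_num) (by linarith)
    have e : w j - x j - (((m : ℤ) - n : ℤ) : ℂ) = (w j + n) - (x j + m) := by
      push_cast
      ring
    have h6 : ‖w j - x j - (((m : ℤ) - n : ℤ) : ℂ)‖ ≤ 2 * ‖x j‖ ^ (-(|M| + 2)) := by
      rw [e]
      calc ‖(w j + n) - (x j + m)‖ ≤ ‖w j + n‖ + ‖x j + m‖ := norm_sub_le _ _
        _ ≤ _ := by linarith
    have h7 : (m : ℤ) - n = h := by
      have h8 : ‖((((m : ℤ) - n) - h : ℤ) : ℂ)‖ < 1 := by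
        have e2 : ((((m : ℤ) - n) - h : ℤ) : ℂ) = (w j - x j - h) - (w j - x j - (((m : ℤ) - n : ℤ) : ℂ)) := by
          push_cast
          ring
        rw [e2]
        calc _ ≤ ‖w j - x j - h‖ + ‖w j - x j - (((m : ℤ) - n : ℤ) : ℂ)‖ := norm_sub_le _ _
          _ < 1 := by linarith
      rw [Complex.norm_intCast] at h8
      have h9 : |((m : ℤ) - n) - h| < 1 := by exact_mod_cast h8
      have h10 := abs_lt.1 h9
      omega
    rw [h7] at h6
    have e3 : w j + -x j + ((-h : ℤ) : ℂ) = w j - x j - h := by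
      push_cast
      ring
    rw [e3]
    have h11 : 0 < ‖x j‖ ^ (-M) := by positivity
    linarith
  filter_upwards [zero_of_sm hPC hx hA hS] with j hj
  push_cast at hj
  linear_combination hj

theorem t_MIS2 : S_PSI → S_LEFT → S_LEFT2 → S_CL → S_PC → S_DOM → S_MIS2 := by
  intro hPSI hLEFT hLEFT2 hCL hPC hDOM x w hx hw E₁ E₂ E₃ hE₁ hE₂ hE₃ h₁ h₂ h₃ β γ δ hrel
  by_contra hne
  push Not at hne
  obtain ⟨n1, n2, n3⟩ := hne
  set u : Ultrafilter ℕ := hyperfilter ℕ with hu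
  have hule : (u : Filter ℕ) ≤ atTop := Nat.hyperfilter_le_atTop
  have hx' := hx.mono_left hule
  have hw' := hw.mono_left hule
  obtain ⟨c1, c2, c3, c4, c5, c6⟩ := hCL u x hx'
  have hwA : Alg u x w := ⟨E₁, hE₁, Eventually.of_forall h₁⟩
  have hrgx : Alg u x (fun j => rg (x j)) := ⟨E₂, hE₂, Eventually.of_forall h₂⟩
  have hrgw : Alg u x (fun j => rg (w j)) := ⟨E₃, hE₃, Eventually.of_forall h₃⟩
  have hP : ∀ P : MvPolynomial (Fin 4) ℂ,
      Alg u x (fun j => MvPolynomial.eval ![x j, w j, rg (x j), rg (w j)] P) := by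
    intro P
    have := alg_eval hCL hx' ![x, w, fun j => rg (x j), fun j => rg (w j)] (by
      intro i
      fin_cases i
      · exact c2
      · exact hwA
      · exact hrgx
      · exact hrgw) P
    have e1 : ∀ j, (fun i => (![x, w, fun j => rg (x j), fun j => rg (w j)] : Fin 4 → ℕ → ℂ) i j) =
        ![x j, w j, rg (x j), rg (w j)] := by
      intro j
      ext i
      fin_cases i <;> rfl
    simpa only [e1] using this
  have hwpc : ∃ (v : ℚ) (C : ℝ), 0 < v ∧ 0 < C ∧ ∀ᶠ j in (u : Filter ℕ),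
      C⁻¹ * ‖x j‖ ^ (v : ℝ) ≤ ‖w j‖ ∧ ‖w j‖ ≤ C * ‖x j‖ ^ (v : ℝ) := by
    rcases hPC u x w hx' hwA with h | ⟨v, C, hC, h⟩
    · exfalso
      have : ∀ᶠ j in (u : Filter ℕ), False := by
        filter_upwards [h, hw'.eventually_ge_atTop 1] with j h7 h8
        rw [h7, norm_zero] at h8
        linarith
      exact u.neBot.ne (by simpa using this)
    · refine ⟨v, C, ?_, hC, h⟩
      by_contra hv
      push Not at hv
      have : ∀ᶠ j in (u : Filter ℕ), False := by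
        filter_upwards [h, hw'.eventually_gt_atTop C, hx'.eventually_ge_atTop 1] with j h7 h8 h9
        have h10 : ‖x j‖ ^ (v : ℝ) ≤ 1 := Real.rpow_le_one_of_one_le_of_nonpos h9 (by exact_mod_cast hv)
        have h11 : C * ‖x j‖ ^ (v : ℝ) ≤ C * 1 := by gcongr
        linarith [h7.2]
      exact u.neBot.ne (by simpa using this)
  obtain ⟨v, C, hv, hC, hb⟩ := hwpc
  have hvr : (0 : ℝ) < v := by exact_mod_cast hv
  have hwx : ∀ᶠ j in (u : Filter ℕ), ‖x j‖ ^ ((v : ℝ) / 2) ≤ ‖w j‖ := by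
    have h7 : Tendsto (fun j => ‖x j‖ ^ ((v : ℝ) / 2)) u atTop := (tendsto_rpow_atTop (by positivity)).comp hx'
    filter_upwards [hb, h7.eventually_ge_atTop C, hx'.eventually_ge_atTop 1] with j h8 h9 h10
    calc ‖x j‖ ^ ((v : ℝ) / 2) = C⁻¹ * (C * ‖x j‖ ^ ((v : ℝ) / 2)) := by field_simp
      _ ≤ C⁻¹ * (‖x j‖ ^ ((v : ℝ) / 2) * ‖x j‖ ^ ((v : ℝ) / 2)) := by gcongr
      _ = C⁻¹ * ‖x j‖ ^ (v : ℝ) := by
        rw [← Real.rpow_add (by linarith), add_halves]
      _ ≤ _ := h8.1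
  have hxx : ∀ᶠ j in (u : Filter ℕ), ‖x j‖ ^ (1 : ℝ) ≤ ‖x j‖ := Eventually.of_forall fun j => by
    rw [Real.rpow_one]
  set β' : ℕ → ℂ := fun j => MvPolynomial.eval ![x j, w j, rg (x j), rg (w j)] β with hβ'
  set γ' : ℕ → ℂ := fun j => MvPolynomial.eval ![x j, w j, rg (x j), rg (w j)] γ with hγ'
  set δ' : ℕ → ℂ := fun j => MvPolynomial.eval ![x j, w j, rg (x j), rg (w j)] δ with hδ'
  have hβA : Alg u x β' := hP β
  have hγA : Alg u x γ' := hP γ
  have hδA : Alg u x δ' := hP δ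
  have hz : Alg u x (fun _ => (0 : ℂ)) := c1 0
  have hrel' : ∀ᶠ j in (u : Filter ℕ), β' j * deriv rg (x j) + γ' j * deriv rg (w j) + δ' j = 0 :=
    Eventually.of_forall hrel
  have hboth : ∀ᶠ j in (u : Filter ℕ), β' j = 0 ∧ γ' j = 0 → False :=
    Eventually.of_forall fun j hj => n1 j hj.1 hj.2
  have hfalse : ∀ᶠ j in (u : Filter ℕ), False := by
    rcases u.em (fun j => |Complex.arg (x j)| ≤ 3 * Real.pi / 4) with hX | hX
    · rcases u.em (fun j => |Complex.arg (w j)| ≤ 3 * Real.pi / 4) with hW | hW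
      · have h7 := caseLL2 hPSI hCL hPC hDOM hx' hw' hwA hv hC hb (by positivity) hwx hX hW hrgx hrgw hβA
          hγA hδA hrel'
        filter_upwards [h7, hule (n3 v hv)] with j h8 h9
        exact h9 h8
      · have hW' : ∀ᶠ j in (u : Filter ℕ), 3 * Real.pi / 4 < |Complex.arg (w j)| := by
          filter_upwards [hW] with j hj
          exact not_le.mp hj
        obtain ⟨g1, g2⟩ := leftS hLEFT hx' hw' (show (0 : ℝ) < v / 2 by positivity) hwx hW' (Alg.pb hPC hx' hrgw)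
        have hψ := psiPb hPSI hCL hPC hx' hx' c2 one_pos hxx hX
        have hL := rgL hx' hX
        have hGx : Pb u x (fun j => deriv rg (x j)) := by
          obtain ⟨c, hc⟩ := (Pb.mul hx' (Alg.pb hPC hx' hrgx) hψ).neg
          exact ⟨c, hc.congr (by filter_upwards [hL] with j hj; exact hj.1.symm)⟩
        have z1 : ∀ᶠ j in (u : Filter ℕ), γ' j = 0 := by
          refine coef_zero hPC hx' hγA (Pb.add hx' (Pb.mul hx' (Alg.pb hPC hx' hβA) hGx)
            (Alg.pb hPC hx' hδA)) g1 g2 ?_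
          filter_upwards [hrel'] with j hj
          linear_combination hj
        have z2 := caseSL hPSI hCL hPC hDOM hx' hx' c2 one_pos hxx hX hrgx hβA hδA hz hz g1 g2 (by
          filter_upwards [hrel', z1] with j h7 h8
          rw [h8] at h7
          linear_combination (deriv rg (w j)) * h7)
        filter_upwards [z1, z2, hboth] with j h7 h8 h9
        exact h9 ⟨h8, h7⟩
    · have hX' : ∀ᶠ j in (u : Filter ℕ), 3 * Real.pi / 4 < |Complex.arg (x j)| := by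
        filter_upwards [hX] with j hj
        exact not_le.mp hj
      obtain ⟨f1, f2⟩ := leftS hLEFT hx' hx' one_pos hxx hX' (Alg.pb hPC hx' hrgx)
      rcases u.em (fun j => |Complex.arg (w j)| ≤ 3 * Real.pi / 4) with hW | hW
      · have hψ := psiPb hPSI hCL hPC hx' hw' hwA (show (0 : ℝ) < v / 2 by positivity) hwx hW
        have hL := rgL hw' hW
        have hGw : Pb u x (fun j => deriv rg (w j)) := by
          obtain ⟨c, hc⟩ := (Pb.mul hx' (Alg.pb hPC hx' hrgw) hψ).neg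
          exact ⟨c, hc.congr (by filter_upwards [hL] with j hj; exact hj.1.symm)⟩
        have z1 : ∀ᶠ j in (u : Filter ℕ), β' j = 0 := by
          refine coef_zero hPC hx' hβA (Pb.add hx' (Pb.mul hx' (Alg.pb hPC hx' hγA) hGw)
            (Alg.pb hPC hx' hδA)) f1 f2 ?_
          filter_upwards [hrel'] with j hj
          linear_combination hj
        have z2 := caseSL hPSI hCL hPC hDOM hx' hw' hwA (by positivity) hwx hW hrgw hγA hδA hz hz f1 f2 (by
          filter_upwards [hrel', z1] with j h7 h8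
          rw [h8] at h7
          linear_combination (deriv rg (x j)) * h7)
        filter_upwards [z1, z2, hboth] with j h7 h8 h9
        exact h9 ⟨h7, h8⟩
      · have hW' : ∀ᶠ j in (u : Filter ℕ), 3 * Real.pi / 4 < |Complex.arg (w j)| := by
          filter_upwards [hW] with j hj
          exact not_le.mp hj
        obtain ⟨g1, g2⟩ := leftS hLEFT hx' hw' (show (0 : ℝ) < v / 2 by positivity) hwx hW' (Alg.pb hPC hx' hrgw)
        rcases u.em (fun j => β' j = 0) with hB | hB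
        · have z1 : ∀ᶠ j in (u : Filter ℕ), γ' j = 0 := by
            refine coef_zero hPC hx' hγA (Alg.pb hPC hx' hδA) g1 g2 ?_
            filter_upwards [hrel', hB] with j h7 h8
            rw [h8] at h7
            linear_combination h7
          filter_upwards [z1, hB, hboth] with j h7 h8 h9
          exact h9 ⟨h8, h7⟩
        · rcases u.em (fun j => γ' j = 0) with hC' | hC'
          · have z1 : ∀ᶠ j in (u : Filter ℕ), β' j = 0 := by
              refine coef_zero hPC hx' hβA (Alg.pb hPC hx' hδA) f1 f2 ?_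
              filter_upwards [hrel', hC'] with j h7 h8
              rw [h8] at h7
              linear_combination h7
            filter_upwards [z1, hC', hboth] with j h7 h8 h9
            exact h9 ⟨h7, h8⟩
          · obtain ⟨h, hh⟩ := caseSS2 hLEFT2 hCL hPC hx' hw' hwA (show (0 : ℝ) < v / 2 by positivity) hwx hX' hW'
              (Alg.pb hPC hx' hrgx) (Alg.pb hPC hx' hrgw) f1 f2 g1 g2 hβA hγA hδA hB hC' hrel'
            filter_upwards [hh, hule (n2 h)] with j h7 h8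
            exact h8 h7
  exact u.neBot.ne (by simpa using hfalse)

end Pool.Agent.J4H63.K2
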